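import Pool.Agent.Q283.EN.Stm2
import Pool.Agent.Q123.CE.FEND

/-!
# Project EN (helper283), job TH3: the endomorphism `1 - ω`, explicitly
-/

set_option autoImplicit false

namespace Pool.Agent.Q124.EN

open WeierstrassCurve Pool.Agent.Q7.CE Pool.Agent.Q285.CE Pool.Agent.Q123.CE Pool.Agent.Q283.EN
open Pool.Agent.TH841.SH.D (Pt act)

/-- the explicit formula for `1 - ω` -/
theorem form {L : Type*} [Field L] [DecidableEq L] [CharZero L] {V : WeierstrassCurve L} {D I : L}
    (hV : IsD V D) (hD : D ≠ 0) (hI : I ^ 2 + I + 1 = 0) {x y : L}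
    (h : V.toAffine.Nonsingular x y) (hx : x ≠ 0) :
    ∃ (X Y : L) (h' : V.toAffine.Nonsingular X Y),
      (Affine.Point.some x y h : V.toAffine.Point) - im hV hD hI (.some x y h) = .some X Y h' ∧
      X * (-3 * I * x ^ 2) = x ^ 3 + D ^ 2 := by
  have h0 := hV.neg_nons hD (hV.im_nons hD hI h)
  have h1I := subI hI
  have hI3 := cubI hI
  have hI0 := neI hI
  have he := (hV.eqn _ _).1 h.1
  rw [sub_eq_add_neg, im_some, hV.neg_eq _ h0]
  have hxy : ¬ (x = I * x ∧ y = -(-y - D) - D) := by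
    rintro ⟨h3, -⟩
    have h4 : (1 - I) * x = 0 := by linear_combination h3
    exact mul_ne_zero h1I hx h4
  obtain ⟨ℓ, X, Y, h', e, eX, eY, hs⟩ := hV.add_ex h h0 hxy
  have hℓ : ℓ * ((1 - I) * x) = 2 * y + D := by
    rcases hs with ⟨-, k1⟩ | ⟨k1, -⟩
    · linear_combination k1
    · exact absurd ⟨k1, by ring⟩ hxy
  refine ⟨X, Y, h', e, ?_⟩
  have e1 : X * ((1 - I) ^ 2 * x ^ 2) = (ℓ * ((1 - I) * x)) ^ 2 - (1 + I) * (1 - I) ^ 2 * x ^ 3 := by
    rw [eX]; ring
  rw [hℓ] at e1
  have e2 : (2 * y + D) ^ 2 = 4 * x ^ 3 + D ^ 2 := by linear_combination 4 * he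
  rw [e2] at e1
  linear_combination e1 + (-X * x ^ 2 + (2 - I) * x ^ 3) * hI

theorem th3 : S_TH3 := by
  intro F _ _ ω D hω0 hD
  have hω : ω ^ 2 + ω + 1 = 0 := by
    have h1 : (ω - 1) * (ω ^ 2 + ω + 1) = 0 := by
      have := hω0.pow_eq_one
      linear_combination this
    refine (mul_eq_zero.1 h1).resolve_left fun h2 => ?_
    exact hω0.ne_one (by norm_num) (sub_eq_zero.1 h2)
  refine ⟨fun L _ _ => AddMonoidHom.id (Pt (ED D) L) - imP hD hω L, ?_, ?_, ?_⟩
  · intro L _ _ P Q a b s ha hb hs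
    have ha0 := ha.1
    have hb0 := hb.1
    rw [cls_iff hD] at ha hb
    have hs0 : s ≠ 0 := by
      rintro rfl
      have : a / b ≠ 0 := div_ne_zero ha0 hb0
      apply this
      rw [hs]
      norm_num
    refine theta_of_clP hD hω L (P - Q) ?_
    have h1 := clP_add hD L (P - Q) Q
    rw [sub_add_cancel] at h1
    have h2 := (h1.mul (hb.div ha)).mul (IsC.of hs0)
    have e : clP D (P - Q) * clP D Q / clP D P * (b / clP D Q / (a / clP D P)) * s ^ 3 = clP D (P - Q) := by
      rw [← hs]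
      have h3 := clP_ne hD P
      have h4 := clP_ne hD Q
      field_simp
    rwa [e] at h2
  · intro L _ _ P hP
    show P - imP hD hω L P = 0
    rcases hP with rfl | ⟨y, h, rfl⟩
    · rw [map_zero, sub_zero]
    · refine sub_eq_zero.2 ?_
      show (Affine.Point.some 0 y h : ((ED D).baseChange L).toAffine.Point) =
        Affine.Point.some (algebraMap F L ω * 0) y _
      rw [Affine.Point.some.injEq]
      exact ⟨by rw [mul_zero], rfl⟩
  · intro L _ _ x y h hx
    exact @form L _ (Classical.decEq L) (charZero_of_injective_algebraMap (algebraMap F L).injective)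
      ((ED D).baseChange L) (algebraMap F L D) (algebraMap F L ω) (isD_base D L) ((map_ne_zero _).2 hD) (by
      rw [← map_pow, ← map_add, ← map_one (algebraMap F L), ← map_add, hω, map_zero]) x y h hx

end Pool.Agent.Q124.EN
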